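import Mathlib

/-!
# The strong geodetic number of a Cartesian product can be smaller than that of a factor

`sg(K_{2,13} □ C_6) ≤ 12 < 13 = sg(K_{2,13})`.
-/

namespace Pool.Agent.Results.MP_8400ad_co.ProductBelowFactor

open Finset SimpleGraph

/-- `S` is a strong geodetic set of `G`: one can choose, for every unordered pair `{x, y}` of
distinct vertices of `S`, (the vertex set `P s(x,y)` of) one shortest path between `x` and `y`, in
such a way that every vertex of `G` lies on one of the chosen paths. -/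
def IsStrongGeodetic {V : Type} (G : SimpleGraph V) (S : Finset V) : Prop :=
  ∃ P : Sym2 V → Set V,
    (∀ x ∈ S, ∀ y ∈ S, x ≠ y →
      ∃ w : G.Walk x y, w.length = G.dist x y ∧ P s(x, y) = {v | v ∈ w.support}) ∧
    ∀ v, ∃ x ∈ S, ∃ y ∈ S, x ≠ y ∧ v ∈ P s(x, y)

/-- The strong geodetic number: the least size of a strong geodetic set. -/
noncomputable def sg {V : Type} (G : SimpleGraph V) : ℕ :=
  sInf {n | ∃ S : Finset V, S.card = n ∧ IsStrongGeodetic G S}

section General

variable {V : Type} {G : SimpleGraph V}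

lemma le_of_walk (f : V → ℤ) (hf : ∀ u v, G.Adj u v → f v ≤ f u + 1) {u v : V}
    (w : G.Walk u v) : f v ≤ f u + w.length := by
  induction w with
  | nil => simp
  | cons h p ih =>
    have := hf _ _ h
    rw [Walk.length_cons]
    push_cast
    omega

lemma geo_of_pot (f : V → ℤ) (hf : ∀ u v, G.Adj u v → f v ≤ f u + 1) {u v : V}
    (w : G.Walk u v) (hw : f v = f u + w.length) : w.length = G.dist u v := by
  have h1 : G.dist u v ≤ w.length := dist_le w
  obtain ⟨p, hp⟩ := w.reachable.exists_walk_length_eq_dist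
  have h2 := le_of_walk f hf p
  omega

/-- Choosing one geodesic for an unordered pair. -/
lemma exists_choice (hG : G.Connected) (e : Sym2 V) : ∃ A : Set V, ∀ u v, e = s(u, v) →
    ∃ w : G.Walk u v, w.length = G.dist u v ∧ A = {z | z ∈ w.support} := by
  induction e using Sym2.ind with
  | _ a b =>
    obtain ⟨p, hp⟩ := hG.exists_walk_length_eq_dist a b
    refine ⟨{z | z ∈ p.support}, ?_⟩
    intro u v huv
    rcases Sym2.eq_iff.mp huv with ⟨rfl, rfl⟩ | ⟨rfl, rfl⟩
    · exact ⟨p, hp, rfl⟩
    · refine ⟨p.reverse, ?_, ?_⟩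
      · rw [Walk.length_reverse, hp, dist_comm]
      · ext z
        simp [Walk.support_reverse]

lemma choice_of_walk {a b : V} (p : G.Walk a b) (hp : p.length = G.dist a b) {u v : V}
    (huv : s(a, b) = s(u, v)) :
    ∃ w : G.Walk u v, w.length = G.dist u v ∧ {z | z ∈ p.support} = {z | z ∈ w.support} := by
  rcases Sym2.eq_iff.mp huv with ⟨rfl, rfl⟩ | ⟨rfl, rfl⟩
  · exact ⟨p, hp, rfl⟩
  · refine ⟨p.reverse, ?_, ?_⟩
    · rw [Walk.length_reverse, hp, dist_comm]
    · ext z
      simp [Walk.support_reverse]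

lemma univ_strong [Fintype V] (hG : G.Connected) (h : ∀ v : V, ∃ u, u ≠ v) :
    IsStrongGeodetic G Finset.univ := by
  choose P hP using exists_choice hG
  refine ⟨P, fun x _ y _ _ => hP s(x, y) x y rfl, fun v => ?_⟩
  obtain ⟨u, hu⟩ := h v
  refine ⟨v, mem_univ _, u, mem_univ _, hu.symm, ?_⟩
  obtain ⟨w, _, hw⟩ := hP s(v, u) v u rfl
  rw [hw]
  exact w.start_mem_support

lemma sg_le {S : Finset V} (h : IsStrongGeodetic G S) : sg G ≤ S.card := Nat.sInf_le ⟨S, rfl, h⟩

lemma le_sg [Fintype V] (hG : G.Connected) (h : ∀ v : V, ∃ u, u ≠ v) {n : ℕ}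
    (hn : ∀ S : Finset V, IsStrongGeodetic G S → n ≤ S.card) : n ≤ sg G := by
  have h1 : sg G ∈ {n | ∃ S : Finset V, S.card = n ∧ IsStrongGeodetic G S} :=
    Nat.sInf_mem ⟨_, Finset.univ, rfl, univ_strong hG h⟩
  obtain ⟨S, hS1, hS2⟩ := h1
  rw [← hS1]
  exact hn S hS2

lemma short_walk {u v m : V} (w : G.Walk u v) (hw : w.length ≤ 2) (hm : m ∈ w.support)
    (h1 : m ≠ u) (h2 : m ≠ v) : G.Adj u m ∧ G.Adj m v ∧ ∀ z ∈ w.support, z = u ∨ z = m ∨ z = v := by
  cases w with
  | nil => simp at hm; exact absurd hm h1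
  | cons h p =>
    cases p with
    | nil =>
      simp at hm
      rcases hm with hm | hm
      · exact absurd hm h1
      · exact absurd hm h2
    | cons h' q =>
      cases q with
      | nil =>
        simp at hm
        rcases hm with hm | hm | hm
        · exact absurd hm h1
        · subst hm
          refine ⟨h, h', fun z hz => ?_⟩
          simpa using hz
        · exact absurd hm h2
      | cons h'' r =>
        simp at hw

end General

/-- The graph `K_{2,13}`. -/
abbrev K : SimpleGraph (Fin 2 ⊕ Fin 13) := completeBipartiteGraph (Fin 2) (Fin 13)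

/-- The cycle `C_6`. -/
def C6 : SimpleGraph (Fin 6) where
  Adj a b := b = a + 1 ∨ a = b + 1
  symm := ⟨fun _ _ h => h.symm⟩
  loopless := ⟨fun a h => by revert a h; decide⟩

instance : DecidableRel C6.Adj := fun a b => inferInstanceAs (Decidable (b = a + 1 ∨ a = b + 1))

lemma K_walk (u v : Fin 2 ⊕ Fin 13) : ∃ w : K.Walk u v, w.length ≤ 2 := by
  rcases u with u | u <;> rcases v with v | v
  · have h1 : K.Adj (Sum.inl u) (Sum.inr 0) := by simp
    have h2 : K.Adj (Sum.inr 0) (Sum.inl v) := by simp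
    exact ⟨Walk.cons h1 (Walk.cons h2 Walk.nil), by simp⟩
  · have h1 : K.Adj (Sum.inl u) (Sum.inr v) := by simp
    exact ⟨Walk.cons h1 Walk.nil, by simp⟩
  · have h1 : K.Adj (Sum.inr u) (Sum.inl v) := by simp
    exact ⟨Walk.cons h1 Walk.nil, by simp⟩
  · have h1 : K.Adj (Sum.inr u) (Sum.inl 0) := by simp
    have h2 : K.Adj (Sum.inl 0) (Sum.inr v) := by simp
    exact ⟨Walk.cons h1 (Walk.cons h2 Walk.nil), by simp⟩

lemma K_conn : K.Connected := by
  haveI : Nonempty (Fin 2 ⊕ Fin 13) := ⟨Sum.inl 0⟩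
  exact Connected.mk fun u v => (K_walk u v).choose.reachable

lemma C6_conn : C6.Connected := by
  haveI : Nonempty (Fin 6) := ⟨0⟩
  have h1 : ∀ a : Fin 6, C6.Reachable a (a + 1) := fun a => by
    apply Adj.reachable
    exact Or.inl rfl
  have h2 : ∀ a : Fin 6, C6.Reachable 0 a := by
    have e1 := h1 0
    have e2 := e1.trans (h1 1)
    have e3 := e2.trans (h1 2)
    have e4 := e3.trans (h1 3)
    have e5 := e4.trans (h1 4)
    intro a
    fin_cases a
    · exact Reachable.refl _
    · exact e1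
    · exact e2
    · exact e3
    · exact e4
    · exact e5
  exact Connected.mk fun u v => (h2 u).symm.trans (h2 v)

lemma fin2_cases (a b : Fin 2) (h : a ≠ b) : (a = 0 ∧ b = 1) ∨ (a = 1 ∧ b = 0) := by
  revert a b
  decide

/-- Every strong geodetic set of `K_{2,13}` has at least 13 elements. -/
lemma K_lower (S : Finset (Fin 2 ⊕ Fin 13)) (hS : IsStrongGeodetic K S) : 13 ≤ S.card := by
  obtain ⟨P, hP, hc⟩ := hS
  have key : ∀ i : Fin 13, Sum.inr i ∉ S → Sum.inl 0 ∈ S ∧ Sum.inl 1 ∈ S ∧
      ∀ j : Fin 13, Sum.inr j ∈ P s(Sum.inl 0, Sum.inl 1) → j = i := by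
    intro i hi
    obtain ⟨x, hx, y, hy, hxy, hm⟩ := hc (Sum.inr i)
    obtain ⟨w, hw, hw'⟩ := hP x hx y hy hxy
    obtain ⟨q, hq⟩ := K_walk x y
    have hlen : w.length ≤ 2 := by
      rw [hw]; exact (dist_le q).trans hq
    rw [hw'] at hm
    obtain ⟨h1, h2, h3⟩ := short_walk w hlen hm (fun h => hi (h ▸ hx)) (fun h => hi (h ▸ hy))
    have hxl : ∃ a : Fin 2, x = Sum.inl a := by
      rcases x with a | a
      · exact ⟨a, rfl⟩
      · simp at h1
    have hyl : ∃ a : Fin 2, y = Sum.inl a := by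
      rcases y with a | a
      · exact ⟨a, rfl⟩
      · simp at h2
    obtain ⟨a, rfl⟩ := hxl
    obtain ⟨b, rfl⟩ := hyl
    have hab : a ≠ b := fun h => hxy (by rw [h])
    have hcase := fin2_cases a b hab
    rcases hcase with ⟨rfl, rfl⟩ | ⟨rfl, rfl⟩
    · refine ⟨hx, hy, fun j hj => ?_⟩
      rw [hw'] at hj
      rcases h3 _ hj with h | h | h
      · exact absurd h (by simp)
      · exact Sum.inr_injective h
      · exact absurd h (by simp)
    · refine ⟨hy, hx, fun j hj => ?_⟩
      rw [Sym2.eq_swap, hw'] at hj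
      rcases h3 _ hj with h | h | h
      · exact absurd h (by simp)
      · exact Sum.inr_injective h
      · exact absurd h (by simp)
  have key2 : ∀ i : Fin 13, Sum.inr i ∉ S → Sum.inr i ∈ P s(Sum.inl 0, Sum.inl 1) := by
    intro i hi
    obtain ⟨x, hx, y, hy, hxy, hm⟩ := hc (Sum.inr i)
    obtain ⟨w, hw, hw'⟩ := hP x hx y hy hxy
    obtain ⟨q, hq⟩ := K_walk x y
    have hlen : w.length ≤ 2 := by
      rw [hw]; exact (dist_le q).trans hq
    have hm' := hm
    rw [hw'] at hm
    obtain ⟨h1, h2, h3⟩ := short_walk w hlen hm (fun h => hi (h ▸ hx)) (fun h => hi (h ▸ hy))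
    have hxl : ∃ a : Fin 2, x = Sum.inl a := by
      rcases x with a | a
      · exact ⟨a, rfl⟩
      · simp at h1
    have hyl : ∃ a : Fin 2, y = Sum.inl a := by
      rcases y with a | a
      · exact ⟨a, rfl⟩
      · simp at h2
    obtain ⟨a, rfl⟩ := hxl
    obtain ⟨b, rfl⟩ := hyl
    have hab : a ≠ b := fun h => hxy (by rw [h])
    have hcase := fin2_cases a b hab
    rcases hcase with ⟨rfl, rfl⟩ | ⟨rfl, rfl⟩
    · exact hm'
    · rwa [Sym2.eq_swap] at hm'
  by_cases hall : ∀ i : Fin 13, Sum.inr i ∈ S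
  · have h1 : (Finset.univ : Finset (Fin 13)).map ⟨Sum.inr, Sum.inr_injective⟩ ⊆ S := by
      intro z hz
      simp only [mem_map, mem_univ, true_and, Function.Embedding.coeFn_mk] at hz
      obtain ⟨i, rfl⟩ := hz
      exact hall i
    have := card_le_card h1
    simpa using this
  · push Not at hall
    obtain ⟨i, hi⟩ := hall
    obtain ⟨hx, hy, hu⟩ := key i hi
    have hrest : ∀ j : Fin 13, j ≠ i → Sum.inr j ∈ S := by
      intro j hj
      by_contra hjS
      exact hj (hu j (key2 j hjS))
    have h1 : insert (Sum.inl 0) (((Finset.univ : Finset (Fin 13)).erase i).map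
        ⟨Sum.inr, Sum.inr_injective⟩) ⊆ S := by
      intro z hz
      rw [mem_insert] at hz
      rcases hz with rfl | hz
      · exact hx
      · simp only [mem_map, mem_erase, mem_univ, and_true, Function.Embedding.coeFn_mk] at hz
        obtain ⟨j, hj, rfl⟩ := hz
        exact hrest j hj
    have h2 := card_le_card h1
    rw [card_insert_of_notMem (by simp), card_map, card_erase_of_mem (mem_univ _), card_univ,
      Fintype.card_fin] at h2
    omega

/-- The distance on `C_6`. -/
def cd (a b : Fin 6) : ℕ := min (b - a).val (a - b).val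

/-- A shortest path of `C_6` from `a` to `b`, without its start. -/
def cyc (a b : Fin 6) : List (Fin 6) :=
  if (b - a).val ≤ 3 then (List.range ((b - a).val + 1)).map (fun t => a + (Fin.ofNat 6 t))
  else (List.range ((a - b).val + 1)).map (fun t => a - (Fin.ofNat 6 t))

/-- The column used for the pair `(x, a)`, `(y, b)`. -/
def col (a b : Fin 6) : Fin 13 :=
  match (b - a).val with
  | 0 => 0
  | 1 => Fin.ofNat 13 (9 + a.val % 2)
  | 2 => Fin.ofNat 13 (3 + a.val % 3)
  | 3 => Fin.ofNat 13 (a.val % 3)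
  | 4 => Fin.ofNat 13 (6 + a.val % 3)
  | _ => Fin.ofNat 13 (11 + a.val % 2)

lemma covered (m : Fin 13) (h : Fin 6) : ∃ a b, col a b = m ∧ h ∈ cyc a b := by
  revert m h
  decide +kernel

lemma cyc_props (a b : Fin 6) : (cyc a b).length = cd a b + 1 ∧ (cyc a b).IsChain C6.Adj ∧
    (cyc a b).head? = some a ∧ (cyc a b).getLast? = some b := by
  revert a b
  decide +kernel

lemma walk_of_chain {V : Type} {G : SimpleGraph V} (l : List V) : ∀ a b : V, l.IsChain G.Adj →
    l.head? = some a → l.getLast? = some b → ∃ w : G.Walk a b, w.support = l := by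
  induction l with
  | nil => intro a b _ h _; simp at h
  | cons c l ih =>
    intro a b hl ha hb
    simp only [List.head?_cons, Option.some.injEq] at ha
    subst ha
    cases l with
    | nil =>
      simp only [List.getLast?_singleton, Option.some.injEq] at hb
      subst hb
      exact ⟨Walk.nil, rfl⟩
    | cons d l =>
      rw [List.isChain_cons_cons] at hl
      obtain ⟨w, hw⟩ := ih d b hl.2 rfl (by rw [← hb, List.getLast?_cons_cons])
      exact ⟨Walk.cons hl.1 w, by rw [Walk.support_cons, hw]⟩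

/-- The potential in the product. -/
def pot (a : Fin 6) (z : (Fin 2 ⊕ Fin 13) × Fin 6) : ℤ :=
  (match z.1 with
    | Sum.inl 0 => 0
    | Sum.inl 1 => 2
    | Sum.inr _ => 1) + cd a z.2

lemma cd_lip (a u v : Fin 6) (h : C6.Adj u v) : cd a v ≤ cd a u + 1 := by
  revert a u v
  decide +kernel

lemma pot_lip (a : Fin 6) (u v : (Fin 2 ⊕ Fin 13) × Fin 6) (h : (K □ C6).Adj u v) :
    pot a v ≤ pot a u + 1 := by
  obtain ⟨u1, u2⟩ := u
  obtain ⟨v1, v2⟩ := v
  rw [boxProd_adj] at h
  rcases h with ⟨h1, h2⟩ | ⟨h1, h2⟩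
  · simp only at h1 h2
    subst h2
    rcases u1 with u1 | u1 <;> rcases v1 with v1 | v1
    · simp at h1
    · fin_cases u1
      · simp [pot]; omega
      · simp [pot]; omega
    · fin_cases v1
      · simp [pot]; omega
      · simp [pot]; omega
    · simp at h1
  · simp only at h1 h2
    subst h2
    have := cd_lip a u2 v2 h1
    simp only [pot]
    omega

/-- The special geodesics. -/
lemma special (a b : Fin 6) :
    ∃ w : (K □ C6).Walk (Sum.inl 0, a) (Sum.inl 1, b),
      w.length = (K □ C6).dist (Sum.inl 0, a) (Sum.inl 1, b) ∧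
      ∀ h ∈ cyc a b, (Sum.inr (col a b), h) ∈ w.support := by
  obtain ⟨h1, h2, h3, h4⟩ := cyc_props a b
  obtain ⟨c, hc⟩ := walk_of_chain (G := C6) (cyc a b) a b h2 h3 h4
  have e1 : (K □ C6).Adj (Sum.inl 0, a) (Sum.inr (col a b), a) := by
    rw [boxProd_adj]; left; simp
  have e2 : (K □ C6).Adj (Sum.inr (col a b), b) (Sum.inl 1, b) := by
    rw [boxProd_adj]; left; simp
  let w : (K □ C6).Walk (Sum.inl 0, a) (Sum.inl 1, b) :=
    Walk.cons e1 ((c.boxProdRight K (Sum.inr (col a b))).concat e2)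
  have hclen : c.length = cd a b := by
    have := c.length_support
    rw [hc, h1] at this
    omega
  have hwlen : w.length = cd a b + 2 := by
    simp only [w, Walk.length_cons, Walk.length_concat]
    rw [show (c.boxProdRight K (Sum.inr (col a b))).length = c.length from Walk.length_map _ _,
      hclen]
  refine ⟨w, ?_, ?_⟩
  · apply geo_of_pot (pot a) (pot_lip a)
    rw [hwlen]
    have : cd a a = 0 := by simp [cd]
    simp only [pot, this]
    push_cast
    ring
  · intro h hh
    simp only [w, Walk.support_cons, Walk.support_concat, List.mem_cons, List.mem_append]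
    right
    left
    rw [show (c.boxProdRight K (Sum.inr (col a b))).support =
      c.support.map (fun z => (Sum.inr (col a b), z)) from Walk.support_map _ _, hc]
    exact List.mem_map.mpr ⟨h, hh, rfl⟩

/-- The strong geodetic set of the product. -/
def S12 : Finset ((Fin 2 ⊕ Fin 13) × Fin 6) :=
  ((Finset.univ : Finset (Fin 2)).map ⟨Sum.inl, Sum.inl_injective⟩) ×ˢ (Finset.univ : Finset (Fin 6))

lemma S12_card : S12.card = 12 := by
  simp [S12]

lemma prod_upper : IsStrongGeodetic (K □ C6) S12 := by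
  have hconn : (K □ C6).Connected := K_conn.boxProd C6_conn
  have hex : ∀ e : Sym2 ((Fin 2 ⊕ Fin 13) × Fin 6), ∃ A : Set ((Fin 2 ⊕ Fin 13) × Fin 6),
      (∀ u v, e = s(u, v) → ∃ w : (K □ C6).Walk u v, w.length = (K □ C6).dist u v ∧
        A = {z | z ∈ w.support}) ∧
      ∀ a b, e = s((Sum.inl 0, a), (Sum.inl 1, b)) → ∀ h ∈ cyc a b, (Sum.inr (col a b), h) ∈ A := by
    intro e
    by_cases he : ∃ a b, e = s((Sum.inl 0, a), (Sum.inl 1, b))
    · obtain ⟨a, b, rfl⟩ := he
      obtain ⟨w, hw1, hw2⟩ := special a b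
      refine ⟨{z | z ∈ w.support}, fun u v huv => choice_of_walk w hw1 huv, ?_⟩
      intro a' b' hab
      rcases Sym2.eq_iff.mp hab with ⟨h1, h2⟩ | ⟨h1, h2⟩
      · simp only [Prod.mk.injEq, true_and] at h1 h2
        subst h1 h2
        exact hw2
      · simp only [Prod.mk.injEq] at h1
        exact absurd (Sum.inl_injective h1.1) (by decide)
    · obtain ⟨A, hA⟩ := exists_choice hconn e
      refine ⟨A, hA, fun a b hab => absurd ⟨a, b, hab⟩ he⟩
  choose P hP using hex
  refine ⟨P, fun x _ y _ _ => (hP s(x, y)).1 x y rfl, ?_⟩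
  have hmem : ∀ (i : Fin 2) (a : Fin 6), ((Sum.inl i, a) : (Fin 2 ⊕ Fin 13) × Fin 6) ∈ S12 := by
    intro i a
    simp [S12]
  rintro ⟨v | m, h⟩
  · -- a vertex of the set itself
    refine ⟨(Sum.inl v, h), hmem v h, (Sum.inl v, h + 1), hmem v _, ?_, ?_⟩
    · simp only [ne_eq, Prod.mk.injEq, true_and]
      revert h
      decide
    · obtain ⟨w, _, hw⟩ := (hP s((Sum.inl v, h), (Sum.inl v, h + 1))).1 _ _ rfl
      rw [hw]
      exact w.start_mem_support
  · obtain ⟨a, b, hab, hh⟩ := covered m h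
    refine ⟨(Sum.inl 0, a), hmem 0 a, (Sum.inl 1, b), hmem 1 b, by simp, ?_⟩
    rw [← hab]
    exact (hP _).2 a b rfl h hh

/-- **The inequality fails.**  There are finite connected graphs `G`, `H` with
`sg(G □ H) < sg(G)`. -/
theorem result : ∃ (V W : Type) (_ : Fintype V) (_ : Fintype W) (G : SimpleGraph V)
    (H : SimpleGraph W), G.Connected ∧ H.Connected ∧ sg (G □ H) < sg G := by
  refine ⟨Fin 2 ⊕ Fin 13, Fin 6, inferInstance, inferInstance, K, C6, K_conn, C6_conn, ?_⟩
  have h1 := sg_le prod_upper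
  rw [S12_card] at h1
  have h2 : 13 ≤ sg K := by
    apply le_sg K_conn _ K_lower
    intro v
    rcases v with v | v
    · exact ⟨Sum.inr 0, by simp⟩
    · exact ⟨Sum.inl 0, by simp⟩
  omega

end Pool.Agent.Results.MP_8400ad_co.ProductBelowFactor
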